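import Pool.Agent.H617R3.BT.Scales

set_option autoImplicit false

/-!
# At most scales the densest progressions of primes are equidistributed

`cnt x y k l` is the number of primes `p ≡ l (mod k)` with `x - y < p ≤ x` and `above k q l` is
the set of reduced residue classes modulo `k q` lying above the class of `l` modulo `k`.
For all ratios `z = y / k` outside a set of scales of small density in the double logarithmic
sense, every progression whose density `φ(k) cnt / y` is nearly the largest one among all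
progressions with the same ratio is equidistributed in its subprogressions and subintervals.
-/

namespace Pool.Agent.Results.MP_26a8c3_nt.MostScales

open Finset Filter Topology
open Pool.Agent.H617R3.BT

/-- the primes `p ≡ l (mod k)` in `(x - k z, x]` have nearly the largest density among all
progressions with ratio `z` -/
def NearMax (ρ z : ℝ) (k : ℕ) (l : ℤ) (x : ℝ) : Prop :=
  ∀ (K : ℕ) (L : ℤ) (X : ℝ), 1 ≤ K → Int.gcd L K = 1 → K * z ≤ X →
    (Nat.totient K : ℝ) * cnt X (K * z) K L / (K * z) ≤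
      (1 + ρ) * ((Nat.totient k : ℝ) * cnt x (k * z) k l / (k * z))

theorem mx_le_of_nearMax {ρ z : ℝ} {k : ℕ} {l : ℤ} {x : ℝ} (hne : (densSet z).Nonempty)
    (h : NearMax ρ z k l x) :
    Mx z ≤ (1 + ρ) * ((Nat.totient k : ℝ) * cnt x (k * z) k l / (k * z)) := by
  apply csSup_le hne
  rintro d ⟨K, L, X, hK, hL, hX, rfl⟩
  exact h K L X hK hL hX

theorem exists_nearMax {ρ z : ℝ} (hρ : 0 < ρ) (hb : BddAbove (densSet z))
    (hne : (densSet z).Nonempty) (hM : 0 < Mx z) :
    ∃ (k : ℕ) (l : ℤ) (x : ℝ), 1 ≤ k ∧ Int.gcd l k = 1 ∧ k * z ≤ x ∧ NearMax ρ z k l x := by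
  have h1 : Mx z / (1 + ρ) < sSup (densSet z) := by
    change Mx z / (1 + ρ) < Mx z
    rw [div_lt_iff₀ (by linarith)]
    have := mul_pos hM hρ
    linarith
  obtain ⟨d, ⟨k, l, x, hk, hl, hx, hd⟩, hlt⟩ := exists_lt_of_lt_csSup hne h1
  refine ⟨k, l, x, hk, hl, hx, fun K L X hK hL hX => ?_⟩
  have h2 : (Nat.totient K : ℝ) * cnt X (K * z) K L / (K * z) ≤ Mx z :=
    le_csSup hb ⟨K, L, X, hK, hL, hX, rfl⟩
  rw [div_lt_iff₀ (by linarith), hd] at hlt
  linarith

/-- one scale -/
theorem one_scale {e z κ : ℝ} (he : 0 < e) (he1 : e ≤ 1 / 45) (hz : 3 ≤ z) (hκ0 : 0 < κ)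
    (hκ : κ ≤ e / 3) (hne : (densSet z).Nonempty)
    (hlow : 1 / (2 * Real.log z) ≤ Mx z)
    (hr : ∀ r, z ^ (1 - κ) ≤ r → BddAbove (densSet r) ∧ Mx r ≤ (1 + e) ^ 3 * Mx z)
    {k : ℕ} {l : ℤ} {x : ℝ} (hk : 1 ≤ k) (hl : Int.gcd l k = 1) (hx : k * z ≤ x)
    (hN : NearMax e z k l x) {q m : ℕ} (hq : 1 ≤ q) (hm : 1 ≤ m) (hqm : (m : ℝ) * q ≤ z ^ κ) :
    ∑ i ∈ range m, ∑ a ∈ above k q l,
      |(cnt (x - k * z + (i + 1) * (k * z / m)) (k * z / m) (k * q) a : ℝ) -
        (cnt x (k * z) k l : ℝ) * Nat.totient k / (m * Nat.totient (k * q))| ≤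
      45 * e * cnt x (k * z) k l := by
  have hk' : (0 : ℝ) < k := by exact_mod_cast hk
  have hq' : (1 : ℝ) ≤ q := by exact_mod_cast hq
  have hm' : (1 : ℝ) ≤ m := by exact_mod_cast hm
  have hkq : 1 ≤ k * q := Nat.mul_pos hk hq
  have htk : (0 : ℝ) < Nat.totient k := by exact_mod_cast Nat.totient_pos.2 hk
  have htkq : (0 : ℝ) < Nat.totient (k * q) := by exact_mod_cast Nat.totient_pos.2 hkq
  have hz0 : 0 < z := by linarith
  have hlz : 0 < Real.log z := Real.log_pos (by linarith)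
  have hy : 0 < k * z := by positivity
  have hMz := mx_le_of_nearMax hne hN
  obtain ⟨dn, hdn⟩ : ∃ dn : ℝ, dn = (Nat.totient k : ℝ) * cnt x (k * z) k l / (k * z) := ⟨_, rfl⟩
  rw [← hdn] at hMz
  have hdn0 : 0 ≤ dn := by rw [hdn]; positivity
  have hNd : (cnt x (k * z) k l : ℝ) = dn * (k * z) / Nat.totient k := by
    rw [hdn]; field_simp
  have h4 : (1 + e) ^ 3 * ((1 + e) * dn) ≤ (1 + 15 * e) * dn := by
    have h5 : (1 + e) ^ 4 ≤ 1 + 15 * e := by
      have e1 : (1 + e) ^ 4 = 1 + e * (4 + 6 * e + 4 * e ^ 2 + e ^ 3) := by ring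
      have e2 : 4 + 6 * e + 4 * e ^ 2 + e ^ 3 ≤ 15 := by nlinarith [pow_pos he 2, pow_pos he 3]
      nlinarith
    calc (1 + e) ^ 3 * ((1 + e) * dn) = (1 + e) ^ 4 * dn := by ring
      _ ≤ (1 + 15 * e) * dn := mul_le_mul_of_nonneg_right h5 hdn0
  have hmain : ∀ (i a : ℕ), a ∈ above k q l →
      (cnt (x - k * z + (i + 1) * (k * z / m)) (k * z / m) (k * q) a : ℝ) ≤
        (1 + 15 * e) *
          ((cnt x (k * z) k l : ℝ) * Nat.totient k / (m * Nat.totient (k * q))) := by
    intro i a ha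
    have ha' : Int.gcd (a : ℤ) (k * q : ℕ) = 1 := by
      rw [Int.gcd_natCast_natCast]
      exact (mem_filter.1 ha).2.1
    obtain ⟨r, hrdef⟩ : ∃ r : ℝ, r = z / (m * q) := ⟨_, rfl⟩
    have hr0 : 0 < r := by rw [hrdef]; positivity
    have hKr : ((k * q : ℕ) : ℝ) * r = k * z / m := by
      rw [hrdef]; push_cast; field_simp
    have hrz : z ^ (1 - κ) ≤ r := by
      rw [hrdef, le_div_iff₀ (by positivity), Real.rpow_sub hz0, Real.rpow_one]
      have hzd : 0 < z ^ κ := Real.rpow_pos_of_pos hz0 _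
      rw [div_mul_eq_mul_div, div_le_iff₀ hzd]
      exact mul_le_mul_of_nonneg_left hqm hz0.le
    obtain ⟨hb, hM⟩ := hr r hrz
    have hX : ((k * q : ℕ) : ℝ) * r ≤ x - k * z + (i + 1) * (k * z / m) := by
      rw [hKr]
      have : 0 ≤ (i : ℝ) * (k * z / m) := by positivity
      linarith
    have h1 := cell_le hr0 hb hkq ha' hX
    rw [hKr] at h1
    refine h1.trans ?_
    have h2 : Mx r ≤ (1 + 15 * e) * dn := by
      have : (1 + e) ^ 3 * Mx z ≤ (1 + e) ^ 3 * ((1 + e) * dn) := by gcongr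
      linarith
    calc Mx r * (k * z / m) / Nat.totient (k * q)
        ≤ ((1 + 15 * e) * dn) * (k * z / m) / Nat.totient (k * q) := by gcongr
      _ = (1 + 15 * e) *
          ((cnt x (k * z) k l : ℝ) * Nat.totient k / (m * Nat.totient (k * q))) := by
          rw [hNd]; field_simp
  have hlq : Real.log q / Real.log 2 ≤ 15 * e * cnt x (k * z) k l := by
    have h1 : Real.log q ≤ κ * Real.log z := by
      rw [← Real.log_rpow hz0]
      apply Real.log_le_log (by linarith)
      refine le_trans ?_ hqm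
      exact le_mul_of_one_le_left (by linarith) hm'
    have hl2 : 1 / 2 < Real.log 2 := by
      have := Real.log_two_gt_d9
      linarith
    have h2 : Real.log q / Real.log 2 ≤ 2 * (κ * Real.log z) := by
      rw [div_le_iff₀ (by linarith)]
      have e0 : 0 < κ * Real.log z := by positivity
      have e1 := mul_le_mul_of_nonneg_left hl2.le e0.le
      linarith
    -- lower bound for the number of primes
    have h3 : 1 / (4 * Real.log z) ≤ dn := by
      have e1 : 1 / (2 * Real.log z) ≤ 2 * dn := by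
        have : (1 + e) * dn ≤ 2 * dn := mul_le_mul_of_nonneg_right (by linarith) hdn0
        linarith
      have e2 : 1 / (4 * Real.log z) = 1 / (2 * Real.log z) / 2 := by field_simp; norm_num
      rw [e2]
      linarith
    have h5 : z / (4 * Real.log z) ≤ cnt x (k * z) k l := by
      rw [hNd]
      have hkk : (Nat.totient k : ℝ) ≤ k := by exact_mod_cast Nat.totient_le k
      have e1 : z / (4 * Real.log z) = 1 / (4 * Real.log z) * z := by ring
      rw [e1]
      have e2 : dn * z ≤ dn * (k * z) / Nat.totient k := by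
        rw [le_div_iff₀ htk]
        have : dn * z * Nat.totient k ≤ dn * z * k :=
          mul_le_mul_of_nonneg_left hkk (by positivity)
        linarith
      exact (mul_le_mul_of_nonneg_right h3 hz0.le).trans e2
    have h6 : Real.log z ≤ 16 * (z / (4 * Real.log z)) := by
      have e1 : 16 * (z / (4 * Real.log z)) = 4 * z / Real.log z := by field_simp; norm_num
      rw [e1, le_div_iff₀ hlz]
      have := log_sq_le (z := z) (by linarith)
      linarith [sq (Real.log z)]
    have h7 : Real.log z ≤ 16 * cnt x (k * z) k l := by linarith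
    have h8 : κ * Real.log z ≤ e / 3 * Real.log z := mul_le_mul_of_nonneg_right hκ hlz.le
    have h9 := mul_le_mul_of_nonneg_left h7 he.le
    have h10 : 0 ≤ e * Real.log z := by positivity
    linarith
  have h := tv_core (ε := 15 * e) hk hq hm hl hy (by positivity) hmain hlq
  linarith

theorem result : ∀ ε : ℝ, 0 < ε → ε ≤ 1 → ∃ (δ C : ℝ) (B : Set ℕ), 0 < δ ∧
    (∀ J : ℕ, ({j | j < J ∧ j ∈ B}.ncard : ℝ) ≤ ε * J + C) ∧
    ∀ j, j ∉ B → ∀ z : ℝ, Real.exp ((1 + δ) ^ j) ≤ z → z < Real.exp ((1 + δ) ^ (j + 1)) →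
      (∃ (k : ℕ) (l : ℤ) (x : ℝ), 1 ≤ k ∧ Int.gcd l k = 1 ∧ k * z ≤ x ∧
        NearMax (ε / 45) z k l x) ∧
      ∀ (k : ℕ) (l : ℤ) (x : ℝ), 1 ≤ k → Int.gcd l k = 1 → k * z ≤ x →
        NearMax (ε / 45) z k l x →
        ∀ q m : ℕ, 1 ≤ q → 1 ≤ m → (m : ℝ) * q ≤ z ^ (δ / 2) →
          ∑ i ∈ range m, ∑ a ∈ above k q l,
            |(cnt (x - k * z + (i + 1) * (k * z / m)) (k * z / m) (k * q) a : ℝ) -
              (cnt x (k * z) k l : ℝ) * Nat.totient k / (m * Nat.totient (k * q))| ≤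
            ε * cnt x (k * z) k l := by
  classical
  intro ε hε hε1
  obtain ⟨e, he⟩ : ∃ e : ℝ, e = ε / 45 := ⟨_, rfl⟩
  have he0 : 0 < e := by rw [he]; positivity
  have he1 : e ≤ 1 / 45 := by rw [he]; linarith
  obtain ⟨δ, hδ⟩ : ∃ δ : ℝ, δ = e * ε / 12 := ⟨_, rfl⟩
  have hδ0 : 0 < δ := by rw [hδ]; positivity
  have hδe : δ ≤ e / 12 := by
    rw [hδ]
    have := mul_le_mul_of_nonneg_left hε1 he0.le
    linarith
  obtain ⟨τ, hτ⟩ : ∃ τ : ℝ, τ = e * ε / 4 := ⟨_, rfl⟩
  have hτ0 : 0 < τ := by rw [hτ]; positivity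
  obtain ⟨c, hc⟩ : ∃ c : ℝ, c = δ * (1 - δ) / 2 := ⟨_, rfl⟩
  have hc0 : 0 < c := by
    rw [hc]
    have : 0 < 1 - δ := by linarith
    positivity
  have hcδ : c ≤ δ := by
    rw [hc]
    nlinarith
  obtain ⟨Z, hZ3, hZ⟩ := mx_lower
  have hPt : Tendsto (fun j : ℕ => (1 + δ) ^ j) atTop atTop :=
    tendsto_pow_atTop_atTop_of_one_lt (by linarith)
  have ev1 : ∀ᶠ j : ℕ in atTop, Real.log Z ≤ (1 + δ) ^ j := hPt.eventually_ge_atTop _
  have ev2 : ∀ᶠ j : ℕ in atTop, -Real.log (min e τ) / c ≤ (1 + δ) ^ j :=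
    hPt.eventually_ge_atTop _
  obtain ⟨J0, hJ0⟩ := eventually_atTop.1 (ev1.and ev2)
  have hmin0 : 0 < min e τ := lt_min he0 hτ0
  have hZ0 : 0 < Z := by linarith
  -- consequences
  have hsc : ∀ j, J0 ≤ j → Z ≤ Real.exp ((1 + δ) ^ j) := by
    intro j hj
    rw [← Real.exp_log hZ0]
    exact Real.exp_le_exp.2 (hJ0 j hj).1
  have hsmall : ∀ j, J0 ≤ j → Real.exp (-(c * (1 + δ) ^ j)) ≤ min e τ := by
    intro j hj
    have h1 := (hJ0 j hj).2
    rw [div_le_iff₀ hc0] at h1
    rw [← Real.exp_log hmin0]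
    apply Real.exp_le_exp.2
    linarith
  have hpow : ∀ j n : ℕ, (1 + δ) ^ j ≤ (1 + δ) ^ (j + n) := fun j n =>
    pow_le_pow_right₀ (by linarith) (by omega)
  have hP0 : ∀ j : ℕ, 0 < (1 + δ) ^ j := fun j => by positivity
  obtain ⟨M, hM⟩ : ∃ M : ℕ → ℝ, M = fun j => Mx (Real.exp ((1 + δ) ^ j)) := ⟨_, rfl⟩
  have hMpos : ∀ j, J0 ≤ j → 0 < M j := by
    intro j hj
    rw [hM]
    refine lt_of_lt_of_le ?_ (hZ _ (hsc j hj)).2.2
    rw [Real.log_exp]
    have := hP0 j
    positivity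
  have hM3 : ∀ j, J0 ≤ j → M (j + 3) ≤ (1 + τ) * M j := by
    intro j hj
    have h1 := mx_mono (z := Real.exp ((1 + δ) ^ (j + 3))) (r := Real.exp ((1 + δ) ^ j))
      (Real.exp_pos _) (Real.exp_pos _) (hZ _ (hsc j hj)).1 (hZ _ (hsc (j + 3) (by omega))).2.1
      (by have := hMpos j hj; rw [hM] at this; exact this.le)
    have h2 : Real.exp ((1 + δ) ^ j) / Real.exp ((1 + δ) ^ (j + 3)) ≤ τ := by
      rw [← Real.exp_sub]
      refine le_trans (Real.exp_le_exp.2 ?_) ((hsmall j hj).trans (min_le_right _ _))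
      have e1 : (1 + δ) ^ (j + 3) = (1 + δ) ^ (j + 2) * (1 + δ) := by ring
      have e2 := hpow j 2
      have e3 : c * (1 + δ) ^ j ≤ δ * (1 + δ) ^ (j + 2) :=
        mul_le_mul hcδ e2 (hP0 j).le hδ0.le
      rw [e1]
      linarith
    have h3 := hMpos j hj
    rw [hM] at h3 ⊢
    exact h1.trans (mul_le_mul_of_nonneg_right (by linarith) h3.le)
  obtain ⟨η, hη⟩ : ∃ η : ℝ, η = Real.log (1 + e) := ⟨_, rfl⟩
  have hη2 : e / 2 ≤ η := by
    rw [hη]
    have h1 := Real.one_sub_inv_le_log_of_pos (show 0 < 1 + e by linarith)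
    have h2 : e / 2 ≤ 1 - (1 + e)⁻¹ := by
      rw [inv_eq_one_div, le_sub_iff_add_le, ← le_sub_iff_add_le', div_le_iff₀ (by linarith)]
      nlinarith
    linarith
  have hη0 : 0 < η := by linarith
  obtain ⟨g, hg⟩ : ∃ g : ℕ → ℝ, g = fun j => -Real.log (M j) := ⟨_, rfl⟩
  have hg1 : ∀ j, J0 ≤ j → -τ ≤ g (j + 3) - g j := by
    intro j hj
    rw [hg]
    have h1 := hM3 j hj
    have h2 := hMpos j hj
    have h3 := hMpos (j + 3) (by omega)
    have h4 := Real.log_le_log h3 h1
    rw [Real.log_mul (by linarith) h2.ne'] at h4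
    have h5 : Real.log (1 + τ) ≤ τ := by
      have := Real.log_le_sub_one_of_pos (show 0 < 1 + τ by linarith)
      linarith
    simp only
    linarith
  have hg2 : ∀ j, J0 ≤ j → g j ≤ 1 + δ * j := by
    intro j hj
    rw [hg]
    have h1 := (hZ _ (hsc j hj)).2.2
    rw [Real.log_exp] at h1
    have h2 : 1 / (2 * (1 + δ) ^ j) ≤ M j := by rw [hM]; exact h1
    have h3 := hP0 j
    have h4 := Real.log_le_log (by positivity) h2
    rw [Real.log_div one_ne_zero (by positivity), Real.log_one, Real.log_mul (by norm_num)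
      (by positivity), Real.log_pow] at h4
    have h5 : Real.log (1 + δ) ≤ δ := by
      have := Real.log_le_sub_one_of_pos (show 0 < 1 + δ by linarith)
      linarith
    have h6 : Real.log 2 ≤ 1 := by
      have := Real.log_two_lt_d9
      linarith
    have h7 : (j : ℝ) * Real.log (1 + δ) ≤ j * δ := mul_le_mul_of_nonneg_left h5 (by positivity)
    simp only
    linarith
  have hcount := count_bad g J0 hη0.le hτ0.le hg1
  obtain ⟨G0, hG0⟩ : ∃ G0 : ℝ, G0 = g J0 + g (J0 + 1) + g (J0 + 2) := ⟨_, rfl⟩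
  refine ⟨δ, 2 * J0 + 1 + (3 + 3 * δ * (J0 + 1) - G0) / η,
    {i | i ≤ J0 ∨ η < g (i - 1 + 3) - g (i - 1)}, hδ0, ?_, ?_⟩
  · intro J
    have h1 : {j | j < J ∧ j ∈ {i | i ≤ J0 ∨ η < g (i - 1 + 3) - g (i - 1)}} ⊆
        ((range (J0 + 1) ∪ ((range (J0 + J)).filter
          (fun j => η < g (j + 3) - g j)).image (fun j => j + 1) : Finset ℕ) : Set ℕ) := by
      rintro i ⟨hi, hi2⟩
      rw [Finset.mem_coe, mem_union, mem_range, mem_image]
      by_cases h : i ≤ J0
      · left; omega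
      · right
        have h2 : η < g (i - 1 + 3) - g (i - 1) := by
          rcases hi2 with h3 | h3
          · exact absurd h3 h
          · exact h3
        refine ⟨i - 1, ?_, by omega⟩
        rw [mem_filter, mem_range]
        exact ⟨by omega, h2⟩
    have h2 := Set.ncard_le_ncard h1 (Finset.finite_toSet _)
    rw [Set.ncard_coe_finset] at h2
    have h3 : (range (J0 + 1) ∪ ((range (J0 + J)).filter
          (fun j => η < g (j + 3) - g j)).image (fun j => j + 1)).card ≤
        (J0 + 1) + ((range (J0 + J)).filter (fun j => η < g (j + 3) - g j)).card := by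
      refine (card_union_le _ _).trans (Nat.add_le_add ?_ card_image_le)
      rw [card_range]
    have h4 : ({j | j < J ∧ j ∈ {i | i ≤ J0 ∨ η < g (i - 1 + 3) - g (i - 1)}}.ncard : ℝ) ≤
        (J0 + 1) + (((range (J0 + J)).filter (fun j => η < g (j + 3) - g j)).card : ℝ) := by
      exact_mod_cast h2.trans h3
    refine h4.trans ?_
    have h5 := hcount J
    rw [← hG0] at h5
    have g0 := hg2 (J0 + J) (by omega)
    have g1 := hg2 (J0 + J + 1) (by omega)
    have g2 := hg2 (J0 + J + 2) (by omega)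
    push_cast at g0 g1 g2
    have h6 : η * (((range (J0 + J)).filter (fun j => η < g (j + 3) - g j)).card : ℝ) ≤
        η * J0 + (3 + 3 * δ * (J0 + 1) - G0) + (3 * δ + τ) * J := by
      linarith
    have h7 : (((range (J0 + J)).filter (fun j => η < g (j + 3) - g j)).card : ℝ) ≤
        J0 + (3 + 3 * δ * (J0 + 1) - G0) / η + (3 * δ + τ) * J / η := by
      have h8 : (J0 : ℝ) + (3 + 3 * δ * (J0 + 1) - G0) / η + (3 * δ + τ) * J / η =
          (η * J0 + (3 + 3 * δ * (J0 + 1) - G0) + (3 * δ + τ) * J) / η := by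
        field_simp
      rw [h8, le_div_iff₀ hη0]
      linarith
    have h9 : (3 * δ + τ) * J / η ≤ ε * J := by
      rw [div_le_iff₀ hη0]
      have e1 : 3 * δ + τ = e / 2 * ε := by rw [hδ, hτ]; ring
      rw [e1]
      have e2 : 0 ≤ ε * J := by positivity
      have e3 := mul_le_mul_of_nonneg_right hη2 e2
      linarith
    linarith
  · intro i hi z hz1 hz2
    have hi' : ¬ (i ≤ J0 ∨ η < g (i - 1 + 3) - g (i - 1)) := hi
    rw [not_or] at hi'
    obtain ⟨hi1, hi2⟩ := hi'
    obtain ⟨j, rfl⟩ : ∃ j, i = j + 1 := ⟨i - 1, by omega⟩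
    have hj : J0 ≤ j := by omega
    rw [Nat.add_sub_cancel, not_lt] at hi2
    have hzZ : Z ≤ z := (hsc (j + 1) (by omega)).trans hz1
    obtain ⟨hb, hne, hlow⟩ := hZ z hzZ
    have hz3 : 3 ≤ z := hZ3.trans hzZ
    have hz0 : 0 < z := by linarith
    have hlz : 0 < Real.log z := Real.log_pos (by linarith)
    have hMz : 0 < Mx z := lt_of_lt_of_le (by positivity) hlow
    -- the scale `j` is good
    have hgood : M j ≤ (1 + e) * M (j + 3) := by
      rw [hg, hη] at hi2
      simp only at hi2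
      have h1 := hMpos j hj
      have h2 := hMpos (j + 3) (by omega)
      have h3 : Real.log (M j) ≤ Real.log ((1 + e) * M (j + 3)) := by
        rw [Real.log_mul (by linarith) h2.ne']
        linarith
      exact (Real.log_le_log_iff h1 (by positivity)).1 h3
    -- comparison of `z` with the scale `j + 3`
    have hup : M (j + 3) ≤ (1 + e) * Mx z := by
      have h1 := mx_mono (z := Real.exp ((1 + δ) ^ (j + 3))) (r := z)
        hz0 (Real.exp_pos _) hb (hZ _ (hsc (j + 3) (by omega))).2.1 hMz.le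
      have h2 : z / Real.exp ((1 + δ) ^ (j + 3)) ≤ e := by
        have h3 : z / Real.exp ((1 + δ) ^ (j + 3)) ≤
            Real.exp ((1 + δ) ^ (j + 1 + 1)) / Real.exp ((1 + δ) ^ (j + 3)) :=
          div_le_div_of_nonneg_right hz2.le (Real.exp_pos _).le
        refine h3.trans ?_
        rw [← Real.exp_sub]
        refine le_trans (Real.exp_le_exp.2 ?_) ((hsmall j hj).trans (min_le_left _ _))
        have e1 : (1 + δ) ^ (j + 3) = (1 + δ) ^ (j + 2) * (1 + δ) := by ring
        have e2 := hpow j 2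
        have e3 : c * (1 + δ) ^ j ≤ δ * (1 + δ) ^ (j + 2) :=
          mul_le_mul hcδ e2 (hP0 j).le hδ0.le
        have e4 : (1 + δ) ^ (j + 1 + 1) = (1 + δ) ^ (j + 2) := by ring
        rw [e1, e4]
        linarith
      rw [hM]
      exact h1.trans (mul_le_mul_of_nonneg_right (by linarith) hMz.le)
    have hr : ∀ r, z ^ (1 - δ / 2) ≤ r →
        BddAbove (densSet r) ∧ Mx r ≤ (1 + e) ^ 3 * Mx z := by
      intro r hr
      have h1 : Real.exp ((1 + δ) ^ j + c * (1 + δ) ^ j) ≤ r := by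
        refine le_trans ?_ hr
        rw [← Real.exp_log (Real.rpow_pos_of_pos hz0 (1 - δ / 2)), Real.log_rpow hz0]
        apply Real.exp_le_exp.2
        have h2 : (1 + δ) ^ (j + 1) ≤ Real.log z := by
          rw [← Real.log_exp ((1 + δ) ^ (j + 1))]
          exact Real.log_le_log (Real.exp_pos _) hz1
        have h3 : (1 - δ / 2) * (1 + δ) ^ (j + 1) ≤ (1 - δ / 2) * Real.log z :=
          mul_le_mul_of_nonneg_left h2 (by linarith)
        have h4 : (1 - δ / 2) * (1 + δ) ^ (j + 1) = (1 + δ) ^ j + c * (1 + δ) ^ j := by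
          rw [hc]; ring
        linarith
      have hcP : 0 ≤ c * (1 + δ) ^ j := by
        have := hP0 j
        positivity
      have h2 : Real.exp ((1 + δ) ^ j) ≤ r :=
        (Real.exp_le_exp.2 (by linarith)).trans h1
      have hrZ : Z ≤ r := (hsc j hj).trans h2
      obtain ⟨hb', hne', hlow'⟩ := hZ r hrZ
      refine ⟨hb', ?_⟩
      have hr0 : 0 < r := by linarith
      have h3 := mx_mono (z := r) (r := Real.exp ((1 + δ) ^ j)) (Real.exp_pos _) hr0
        (hZ _ (hsc j hj)).1 hne' (by have := hMpos j hj; rw [hM] at this; exact this.le)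
      have h4 : Real.exp ((1 + δ) ^ j) / r ≤ e := by
        rw [div_le_iff₀ hr0]
        have h5 : Real.exp ((1 + δ) ^ j) =
            Real.exp (-(c * (1 + δ) ^ j)) * Real.exp ((1 + δ) ^ j + c * (1 + δ) ^ j) := by
          rw [← Real.exp_add]; congr 1; ring
        rw [h5]
        exact mul_le_mul ((hsmall j hj).trans (min_le_left _ _)) h1 (Real.exp_pos _).le he0.le
      have h6 : Mx r ≤ (1 + e) * M j := by
        have h7 := hMpos j hj
        rw [hM] at h7 ⊢
        exact h3.trans (mul_le_mul_of_nonneg_right (by linarith) h7.le)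
      calc Mx r ≤ (1 + e) * M j := h6
        _ ≤ (1 + e) * ((1 + e) * M (j + 3)) := by gcongr
        _ ≤ (1 + e) * ((1 + e) * ((1 + e) * Mx z)) := by gcongr
        _ = (1 + e) ^ 3 * Mx z := by ring
    rw [← he]
    refine ⟨exists_nearMax he0 hb hne hMz, ?_⟩
    intro k l x hk hl hx hN q m hq hm hqm
    have h := one_scale he0 he1 hz3 (half_pos hδ0) (by linarith) hne hlow hr hk hl hx hN hq hm hqm
    have h45 : 45 * e = ε := by rw [he]; ring
    rwa [h45] at h

end Pool.Agent.Results.MP_26a8c3_nt.MostScales
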