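import Pool.Agent.H617R3.BT.Reduce
import Pool.Agent.Helper923.PNT

set_option autoImplicit false

/-!
# The optimal constant in the Brun-Titchmarsh inequality and its extremal progressions

`cnt x y k l` is the number of primes `p ≡ l (mod k)` with `x - y < p ≤ x` and `above k q l` is
the set of reduced residue classes modulo `k q` lying above the class of `l` modulo `k`.

There is a (unique) constant `C ∈ [1, 2]`, the optimal constant in the Brun-Titchmarsh inequality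
for `y / k` large, such that: progressions with constant near `C` exist on every sequence of
ratios `y / k = Z_j` with `log Z_{j+1} ~ log Z_j`, with modulus divisible by a prescribed `D_j`
with `log D_j = o(log Z_j)`; every such progression is equidistributed in all its subprogressions
and subintervals of index at most `(y / k) ^ (ε / 8)`; and the constant `2` can be improved for
`y / k` large if and only if `C < 2`.
-/

namespace Pool.Agent.Results.MP_26a8c3_nt.OptimalConstant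

open Finset Filter Topology
open Pool.Agent.H617R3.BT

theorem one_le_of_bd {C : ℝ} (h : Bd C) : 1 ≤ C := by
  obtain ⟨Z₀, hZ₀⟩ := h
  refine le_of_tendsto Pool.Agent.Helper923.PNT.pi_tendsto ?_
  filter_upwards [eventually_ge_atTop Z₀, eventually_gt_atTop (1 : ℝ)] with x hx hx1
  have h1 := hZ₀ 1 0 x x le_rfl (by simp) le_rfl (by simpa using hx)
  have h2 : (Nat.primeCounting ⌊x⌋₊ : ℝ) ≤ cnt x x 1 0 := by
    rw [cnt_eq]
    have : Nat.primeCounting ⌊x⌋₊ ≤ (pf x x 1 0).card := by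
      unfold Nat.primeCounting Nat.primeCounting'
      rw [Nat.count_eq_card_filter_range]
      apply card_le_card
      intro p hp
      rw [mem_filter, mem_range] at hp
      rw [mem_pf]
      refine ⟨hp.2, ?_, ?_, ?_⟩
      · rw [sub_self]
        exact_mod_cast hp.2.pos
      · have h3 : p ≤ ⌊x⌋₊ := by omega
        exact (Nat.le_floor_iff (by linarith)).1 h3
      · rw [Nat.cast_one]
        exact Int.modEq_one
    exact_mod_cast this
  have hl : 0 < Real.log x := Real.log_pos hx1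
  rw [div_le_iff₀ (by linarith)]
  rw [Nat.totient_one, Nat.cast_one, one_mul, div_one, le_div_iff₀ hl] at h1
  have := mul_le_mul_of_nonneg_right h2 hl.le
  linarith

theorem bd_mono {C C' : ℝ} (hCC : C ≤ C') (h : Bd C) : Bd C' := by
  obtain ⟨Z₀, hZ₀⟩ := h
  refine ⟨max Z₀ 1, fun k l x y hk hl hxy hz => ?_⟩
  refine (hZ₀ k l x y hk hl hxy ((le_max_left _ _).trans hz)).trans ?_
  have hz1 : 1 ≤ y / k := (le_max_right _ _).trans hz
  have hk' : (0 : ℝ) < k := by exact_mod_cast hk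
  have hy : 0 ≤ y := by
    rw [le_div_iff₀ hk'] at hz1
    linarith
  have hl0 : 0 ≤ Real.log (y / k) := Real.log_nonneg hz1
  apply div_le_div_of_nonneg_right _ (by positivity)
  exact mul_le_mul_of_nonneg_right hCC hy

theorem bd_two {ε : ℝ} (hε : 0 < ε) : Bd (2 + ε) := by
  obtain ⟨Z, _, hZ⟩ := bt ε hε
  exact ⟨Z, fun k l x y hk _ _ hz => hZ k l x y hk hz⟩

theorem result : ∃ C : ℝ, 1 ≤ C ∧ C ≤ 2 ∧
    (∀ ε : ℝ, 0 < ε → ∃ Z₀ : ℝ, ∀ (k : ℕ) (l : ℤ) (x y : ℝ), 1 ≤ k → Int.gcd l k = 1 →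
      y ≤ x → Z₀ ≤ y / k →
        (cnt x y k l : ℝ) ≤ (C + ε) * y / ((Nat.totient k : ℝ) * Real.log (y / k))) ∧
    (∀ (Z : ℕ → ℝ) (D : ℕ → ℕ), Tendsto Z atTop atTop →
      Tendsto (fun j => Real.log (Z (j + 1)) / Real.log (Z j)) atTop (𝓝 1) →
      (∀ j, 1 ≤ D j) → Tendsto (fun j => Real.log (D j) / Real.log (Z j)) atTop (𝓝 0) →
      ∀ ε : ℝ, 0 < ε → ∃ᶠ j in atTop, ∃ (k : ℕ) (l : ℤ) (x : ℝ), 1 ≤ k ∧ D j ∣ k ∧
        Int.gcd l k = 1 ∧ k * Z j ≤ x ∧
        (C - ε) * (k * Z j) / ((Nat.totient k : ℝ) * Real.log (Z j)) ≤ cnt x (k * Z j) k l) ∧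
    (∀ ε : ℝ, 0 < ε → ε ≤ 1 → ∃ Z₀ : ℝ, ∀ (k : ℕ) (l : ℤ) (x y : ℝ), 1 ≤ k →
      Int.gcd l k = 1 → y ≤ x → Z₀ ≤ y / k →
      (C - ε / 8) * y / ((Nat.totient k : ℝ) * Real.log (y / k)) ≤ cnt x y k l →
      (∀ (K : ℕ) (L : ℤ) (X Y : ℝ), 1 ≤ K → Int.gcd L K = 1 → Y ≤ X →
        (y / k) ^ (1 - ε / 8) ≤ Y / K →
          (Nat.totient K : ℝ) * cnt X Y K L / Y ≤
            (1 + ε) * ((Nat.totient k : ℝ) * cnt x y k l / y)) ∧
      (∀ q m : ℕ, 1 ≤ q → 1 ≤ m → (m : ℝ) * q ≤ (y / k) ^ (ε / 8) →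
        ∑ i ∈ range m, ∑ a ∈ above k q l,
          |(cnt (x - y + (i + 1) * (y / m)) (y / m) (k * q) a : ℝ) -
            (cnt x y k l : ℝ) * Nat.totient k / (m * Nat.totient (k * q))| ≤
          3 * ε * cnt x y k l)) ∧
    ((∃ δ Z₀ : ℝ, 0 < δ ∧ ∀ (k : ℕ) (l : ℤ) (x y : ℝ), 1 ≤ k → Int.gcd l k = 1 →
      y ≤ x → Z₀ ≤ y / k →
        (cnt x y k l : ℝ) < (2 - δ) * y / ((Nat.totient k : ℝ) * Real.log (y / k))) ↔
      C < 2) := by
  obtain ⟨C, hCdef⟩ : ∃ C : ℝ, C = sInf {c : ℝ | Bd c} := ⟨_, rfl⟩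
  have hne : {c : ℝ | Bd c}.Nonempty := ⟨2 + 1, bd_two one_pos⟩
  have hbdd : BddBelow {c : ℝ | Bd c} := ⟨1, fun c hc => one_le_of_bd hc⟩
  have hC1 : 1 ≤ C := by
    rw [hCdef]
    exact le_csInf hne fun c hc => one_le_of_bd hc
  have hle : ∀ c : ℝ, Bd c → C ≤ c := fun c hc => by
    rw [hCdef]
    exact csInf_le hbdd hc
  have hC2 : C ≤ 2 := le_of_forall_pos_le_add fun ε hε => hle _ (bd_two hε)
  have hC : ∀ ε : ℝ, 0 < ε → Bd (C + ε) := by
    intro ε hε
    obtain ⟨c, hc, hcε⟩ := exists_lt_of_csInf_lt hne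
      (show sInf {c : ℝ | Bd c} < C + ε by rw [← hCdef]; linarith)
    exact bd_mono hcε.le hc
  refine ⟨C, hC1, hC2, hC, ?_, ?_, ?_⟩
  · intro Z D hZ hr hD1 hD ε hε
    by_contra hcon
    rw [not_frequently] at hcon
    obtain ⟨ε', hε'⟩ : ∃ ε' : ℝ, ε' = min ε (1 / 2) := ⟨_, rfl⟩
    have h0 : 0 < ε' := by rw [hε']; exact lt_min hε (by norm_num)
    have h1 : ε' ≤ 1 / 2 := by rw [hε']; exact min_le_right _ _
    have h2 : ε' ≤ ε := by rw [hε']; exact min_le_left _ _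
    have hal : BdAlong Z D (C - ε') := by
      obtain ⟨J, hJ⟩ := eventually_atTop.1 (hcon.and (hZ.eventually_gt_atTop 1))
      refine ⟨J, fun j hj k l x hk hDk hl hx => ?_⟩
      obtain ⟨h3, h4⟩ := hJ j hj
      have h5 : ¬ ((C - ε) * (k * Z j) / ((Nat.totient k : ℝ) * Real.log (Z j)) ≤
          cnt x (k * Z j) k l) := fun h6 => h3 ⟨k, l, x, hk, hDk, hl, hx, h6⟩
      refine (not_le.1 h5).le.trans ?_
      have h7 : 0 < Real.log (Z j) := Real.log_pos h4
      have h8 : 0 < Z j := by linarith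
      apply div_le_div_of_nonneg_right _ (by positivity)
      exact mul_le_mul_of_nonneg_right (by linarith) (by positivity)
    have h9 := hle _ (bd_of_along Z D hZ hr hD1 hD (by linarith) (by linarith)
      (half_pos h0) (by linarith) hal)
    linarith
  · intro ε hε hε1
    obtain ⟨Z1, _, hZ1⟩ := dens_le hC1 hC hε hε1
    obtain ⟨Z2, _, hZ2⟩ := tv_le hC1 hC hε hε1
    refine ⟨max Z1 Z2, fun k l x y hk hl hxy hz hN => ⟨?_, ?_⟩⟩
    · exact hZ1 k l x y hk ((le_max_left _ _).trans hz) hN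
    · exact hZ2 k l x y hk hl hxy ((le_max_right _ _).trans hz) hN
  · constructor
    · rintro ⟨δ, Z₀, hδ, h⟩
      have := hle (2 - δ) ⟨Z₀, fun k l x y hk hl hxy hz => (h k l x y hk hl hxy hz).le⟩
      linarith
    · intro hlt
      obtain ⟨Z₀, hZ₀⟩ := hC ((2 - C) / 2) (by linarith)
      refine ⟨(2 - C) / 4, max Z₀ 2, by linarith, fun k l x y hk hl hxy hz => ?_⟩
      refine (hZ₀ k l x y hk hl hxy ((le_max_left _ _).trans hz)).trans_lt ?_
      have hz2 : 2 ≤ y / k := (le_max_right _ _).trans hz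
      have hk' : (0 : ℝ) < k := by exact_mod_cast hk
      have htk : (0 : ℝ) < Nat.totient k := by exact_mod_cast Nat.totient_pos.2 hk
      have hy : 0 < y := by
        rw [le_div_iff₀ hk'] at hz2
        linarith
      have hl0 : 0 < Real.log (y / k) := Real.log_pos (by linarith)
      apply div_lt_div_of_pos_right _ (by positivity)
      exact mul_lt_mul_of_pos_right (by linarith) hy

end Pool.Agent.Results.MP_26a8c3_nt.OptimalConstant
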